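import Pool.Agent.Work.MP_8f87b2_h2.Walk

/-!
# MP_8f87b2_co: a closed walk through all vertices of the odd graph with a symmetry of order `2 k + 1`,
exponentially close to a Hamilton cycle
-/

set_option autoImplicit false

namespace Pool.Agent.Results.MP_8f87b2_co.NearHamiltonWalk

open Pool.Agent.Work.MP_8f87b2_co

/-- The odd graph `O_k` has a closed walk `c` of length `(2 k + 1) ℓ` through every vertex on which the rotation
of the ground set by one acts as the translation by `ℓ`; the length is at most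
`|V| + (2 k + 1) (2 F_(k-1) F_k + 2 k)`, and all but `(2 k + 1) (2 F_(k-1) F_k + 2 k)` vertices are visited
exactly once. -/
theorem result (k : ℕ) (hk : 1 ≤ k) :
    ∃ ℓ : ℕ, 0 < ℓ ∧
      (2 * k + 1) * ℓ ≤ Nat.card (V k) + (2 * k + 1) * (2 * (Nat.fib (k - 1) * Nat.fib k) + 2 * k) ∧
      ∃ c : ZMod ((2 * k + 1) * ℓ) → V k, Function.Surjective c ∧
        (∀ i, (oddGraph k).Adj (c i) (c (i + 1))) ∧
        (∀ i, (c (i + (ℓ : ZMod ((2 * k + 1) * ℓ)))).1 = (c i).1.image (· + 1)) ∧
        Nat.card (V k) ≤ Nat.card {A : V k // ∃! i, c i = A} +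
          (2 * k + 1) * (2 * (Nat.fib (k - 1) * Nat.fib k) + 2 * k) := by
  obtain ⟨ℓ, h1, h2, c, h3, h4, h5, h6⟩ := Pool.OddHC.Wk.near_walk hk
  have hV := Pool.OddHC.Wk.card_Vk k
  refine ⟨ℓ, ?_, ?_, c, h3, h4, ?_, h6⟩
  · have h7 : 0 < Nat.card (V k) := by
      rw [Nat.card_eq_fintype_card, card_V]
      exact Nat.choose_pos (by omega)
    rw [hV] at h7
    exact lt_of_lt_of_le (Nat.pos_of_mul_pos_left h7) h1
  · rw [hV, ← Nat.mul_add]
    apply Nat.mul_le_mul_left
    omega
  · intro i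
    rw [← h5 i]
    ext x
    rw [mem_shift, Finset.mem_image]
    constructor
    · intro h
      exact ⟨x - 1, h, by ring⟩
    · rintro ⟨y, hy, rfl⟩
      rwa [add_sub_cancel_right]

end Pool.Agent.Results.MP_8f87b2_co.NearHamiltonWalk
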