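import Pool.Agent.Work.MP_8f87b2_h41.FewF

set_option autoImplicit false

open Pool.Agent.Work.MP_8f87b2_co

/-- The odd graph `O_k` has a spanning 2-regular subgraph `H` which is invariant under the rotation `x -> x + 1` of the
ground set `Z/(2k+1)` and whose cycles form at most `1 + fib (k - 1) * fib k` orbits under the rotation. -/
theorem Pool.Agent.Results.MP_8f87b2_co.SymmetricTwoFactor.result (k : ℕ) (hk : 1 ≤ k) :
    ∃ H : SimpleGraph (V k), H ≤ oddGraph k ∧ (∀ A, Nat.card (H.neighborSet A) = 2) ∧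
      (∀ A B A' B' : V k, A'.1 = A.1.image (· + 1) → B'.1 = B.1.image (· + 1) →
        (H.Adj A' B' ↔ H.Adj A B)) ∧
      (∃ S : Finset (V k), S.card ≤ 1 + Nat.fib (k - 1) * Nat.fib k ∧
        ∀ A, ∃ B ∈ S, ∃ B' : V k, (∃ t, B'.1 = B.1.image (· + t)) ∧ H.Reachable A B') ∧
      Nat.card H.ConnectedComponent ≤ (2 * k + 1) * (1 + Nat.fib (k - 1) * Nat.fib k) := by
  have hs : ∀ (t : ZMod (2 * k + 1)) (A : V k), (shift k t A).1 = A.1.image (· + t) := by
    intro t A
    ext x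
    rw [mem_shift, Finset.mem_image]
    constructor
    · intro h
      exact ⟨x - t, h, by ring⟩
    · rintro ⟨y, hy, rfl⟩
      rwa [add_sub_cancel_right]
  obtain ⟨H, h1, h2, h3, ⟨S, h4, h5⟩, h6⟩ := Pool.OddHC.few_factor hk
  refine ⟨H, h1, h2, ?_, ⟨S, h4, ?_⟩, h6⟩
  · intro A B A' B' hA hB
    have e1 : shift k 1 A = A' := Subtype.ext ((hs 1 A).trans hA.symm)
    have e2 : shift k 1 B = B' := Subtype.ext ((hs 1 B).trans hB.symm)
    rw [← e1, ← e2]
    exact h3 1 A B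
  · intro A
    obtain ⟨B, hB, t, ht⟩ := h5 A
    exact ⟨B, hB, shift k t B, ⟨t, hs t B⟩, ht⟩
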