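import Pool.Agent.Work.MP_8f87b2_h24.SymRot

/-!
# MP_8f87b2_co: the symmetry groups of the Hamilton cycles of the odd graphs (helper24)

`O_k` on the `k`-subsets of `ZMod (2k+1)`; the group of all automorphisms preserving a Hamilton
cycle; the exact list of the orders of the freely acting cyclic groups of automorphisms; the extreme
order `2k+1` occurs for a Hamilton cycle if and only if it occurs for the rotation.
The definitions `V`, `oddGraph`, `HamCycle`, `Preserves`, `compressionSet`, `shift` and the theorem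
that `Aut(O_k)` is the symmetric group are helper30's.
-/

set_option autoImplicit false

namespace Pool.Agent.Results.MP_8f87b2_co.SymmetryOrders

open Pool.Agent.Work.MP_8f87b2_co Pool.Agent.Work.MP_8f87b2_h24.Sym

theorem result (k : ℕ) (hk : 3 ≤ k) :
    (∀ C : HamCycle (oddGraph k),
      IsCyclic (stab C) ∧ Odd (Nat.card (stab C)) ∧ Nat.card (stab C) ≤ 2 * k + 1 ∧
      (∀ φ ∈ stab C, φ ≠ 1 → ∀ A, φ A ≠ A)) ∧
    (∀ m : ℕ, 0 < m → (Admissible k m ↔ ∃ φ : oddGraph k ≃g oddGraph k, orderOf φ = m ∧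
      ∀ j : ℕ, φ ^ j ≠ 1 → ∀ A, (φ ^ j) A ≠ A)) ∧
    (∀ m ∈ compressionSet (oddGraph k),
      Odd m ∧ Admissible k m ∧ (m = 2 * k + 1 ∨ m ≤ 2 * k - 1)) ∧
    (2 * k + 1 ∈ compressionSet (oddGraph k) ↔
      ∃ C : HamCycle (oddGraph k), Preserves (shift k 1) C) := by
  refine ⟨fun C => ⟨stab_cyclic hk C, stab_odd hk C, stab_le hk C, ?_⟩, ?_, ?_, ?_⟩
  · intro φ hφ hne A hA
    exact hne (eq_one_of_fix hk C φ hφ A hA)
  · intro m hm
    constructor
    · exact exists_free_automorphism (by omega) hm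
    · rintro ⟨φ, h1, h2⟩
      exact admissible_of_free (by omega) φ h1 h2
  · intro m hm
    exact compression_mem hk hm
  · exact rotation_criterion hk

end Pool.Agent.Results.MP_8f87b2_co.SymmetryOrders
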